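import Pool.Agent.LibSD71.Bir

/-!
# Self-dual Chow-Kuenneth decompositions: birational invariance and a birational criterion
-/

namespace Pool.Agent.Results.MP_8a7054_ag.BirationalCriterion

open SDCK SDCK.Cycles

universe u v

theorem result (T : Cycles.{u, v}) (N : Set T.ι) (h : T.Basic N) (x : T.ι) :
    -- birational invariance
    (∀ y : T.ι, T.dim x = T.dim y → ∀ a ∈ T.CH x y (T.dim x), ∀ b ∈ T.CH y x (T.dim y),
      b * a - T.Δ x ∈ T.Exc N x → a * b - T.Δ y ∈ T.Exc N y →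
      ((∃ P, T.IsSelfDualCK x P ∧ ∀ k : Fin (T.dim x), P (low T k) ∈ T.Gen N x) ↔
        ∃ P, T.IsSelfDualCK y P ∧ ∀ k : Fin (T.dim y), P (low T k) ∈ T.Gen N y)) ∧
    -- the criterion
    List.TFAE [∃ P, T.IsSelfDualCK x P ∧ ∀ k : Fin (T.dim x), P (low T k) ∈ T.Gen N x,
      ∃ P, T.IsCK x P ∧ ∀ k : Fin (T.dim x), P (low T k) ∈ T.Gen N x,
      T.Dom N x] := by
  have key : ∀ z : T.ι, (∃ P, T.IsSelfDualCK z P ∧
      ∀ k : Fin (T.dim z), P (low T k) ∈ T.Gen N z) ↔ T.Dom N z := fun z =>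
    (dom_criterion h z).out 0 2
  refine ⟨fun y hd a ha b hb hba hab => ?_, dom_criterion h x⟩
  exact (key x).trans (Iff.trans ⟨fun hx => dom_of_birational hd.symm hb ha h hab hba hx,
    fun hy => dom_of_birational hd ha hb h hba hab hy⟩ (key y).symm)

end Pool.Agent.Results.MP_8a7054_ag.BirationalCriterion
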