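import Pool.Agent.LibFR75.Fib

/-!
# Self-dual Chow-Kuenneth decompositions from frames
-/

namespace Pool.Agent.Results.MP_8a7054_ag.FrameTheorem

open SDCK SDCK.Cycles

universe u v

theorem result (T : Cycles.{u, v}) (N : Set T.ι) (hN : T.Kim N) (x : T.ι) (m : ℕ) :
    (∀ F : T.Frame N x m, F.Spans → ∃ p, T.IsSelfDualCK x p) ∧
    ∀ (y : T.ι) (F : T.Fibration x y m), F.Spans N → ∀ p, T.IsCK y p →
      (∀ j, F.s j = j → ∀ k, star (p k) = p k.rev) → ∃ p, T.IsSelfDualCK x p :=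
  ⟨fun F hF => F.selfDual hN hF, fun _ F hF _ hp hs => F.selfDual hN hF hp hs⟩

end Pool.Agent.Results.MP_8a7054_ag.FrameTheorem
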