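import Pool.Agent.LibLF72.Final

/-!
# A class of varieties with self-dual Chow-Kuenneth decompositions
-/

namespace Pool.Agent.Results.MP_8a7054_ag.LefschetzClass

open SDCK SDCK.Cycles

universe u v

theorem result (T : Cycles.{u, v}) (hT : T.Small) (x : T.ι) (s : ℕ) (D : Fin s → Set T.C)
    (h : T.Pol x s D) : ∃ p, T.IsSelfDualCK x p :=
  pol_ck hT h

end Pool.Agent.Results.MP_8a7054_ag.LefschetzClass
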