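import Pool.Agent.LibLC88.F1

/-!
# A linear criterion for self-dual Chow-Kuenneth decompositions
-/

namespace Pool.Agent.Results.MP_8a7054_ag.LinearCriterion

open SDCK SDCK.Cycles

universe u v

theorem result (T : Cycles.{u, v}) (N : Set T.ι) (hN : T.Kim N) (x : T.ι) (e : T.C)
    (he : e ∈ T.Cor x x 1) (hs : star e = e) :
    (T.Lin N x e → T.Lefschetz N x e → ∃ P, T.IsSelfDualCK x P) ∧
      (N = ∅ → List.TFAE [T.Lefschetz N x e ∧ T.IsLinear N x e,
        ∃ P, T.IsCK x P ∧ T.ExactLefschetz x e P,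
        ∃ P, T.IsSelfDualCK x P ∧ T.ExactLefschetz x e P]) := by
  refine ⟨fun h hL => ?_, ?_⟩
  · obtain ⟨P, hP, -⟩ := linear_criterion hN h hs hL
    exact ⟨P, hP⟩
  · rintro rfl
    exact F1_tfae hN he hs

end Pool.Agent.Results.MP_8a7054_ag.LinearCriterion
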